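import Pool.Agent.Helper26.Lr.Defs
import Pool.Agent.Helper26.Ip.Tools
import Pool.Agent.Helper83.Ip.ETA

/-!
# Package LR5a: conditional moments and characteristic functionals
-/

set_option autoImplicit false
set_option linter.unusedSectionVars false
open MeasureTheory Filter Topology ProbabilityTheory
open scoped ContDiff ENNReal InnerProductSpace

namespace Pool.Agent.Helper72.Lr

open Pool.Agent.N661.BR (MW J0 IsStationary shift meas_eval meas_shift IsGaussianLaw lin meas_lin)
open Pool.Agent.Helper37.BC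
open Pool.Agent.Helper26.Ip
open Pool.Agent.Helper26.Lr
open Complex (I)

noncomputable section

section general

variable {Ω : Type*} [mΩ : MeasurableSpace Ω] {μ : Measure Ω} [IsProbabilityMeasure μ]

theorem int_bdd {g : Ω → ℝ} (hg : Integrable g μ) {v : Ω → ℝ} (hv : Measurable v)
    (hb : ∀ f, |v f| ≤ 1) : Integrable (fun f => g f * v f) μ :=
  hg.mul_bdd (c := 1) hv.aestronglyMeasurable (Eventually.of_forall fun f => hb f)

/-- a constant conditional expectation factors out -/
theorem int_mul_of_condExp {g X : Ω → ℝ} (hg : Integrable g μ) (hX : Measurable X) {a : ℝ}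
    (h : μ[g | MeasurableSpace.comap X inferInstance] =ᵐ[μ] fun _ => a) {u : ℝ → ℝ}
    (hu : Measurable u) (hb : ∀ x, |u x| ≤ 1) :
    ∫ f, g f * u (X f) ∂μ = a * ∫ f, u (X f) ∂μ := by
  have hle : MeasurableSpace.comap X inferInstance ≤ mΩ := hX.comap_le
  have hm : StronglyMeasurable[MeasurableSpace.comap X inferInstance] fun f => u (X f) :=
    (hu.comp (comap_measurable X)).stronglyMeasurable
  have hi : Integrable (g * fun f => u (X f)) μ := int_bdd hg (hu.comp hX) fun f => hb _
  have h1 := condExp_mul_of_stronglyMeasurable_right hm hi hg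
  have h2 : ∫ f, (g * fun f => u (X f)) f ∂μ =
      ∫ f, (μ[g * fun f => u (X f) | MeasurableSpace.comap X inferInstance]) f ∂μ :=
    (integral_condExp hle).symm
  have h3 : ∫ f, (μ[g * fun f => u (X f) | MeasurableSpace.comap X inferInstance]) f ∂μ =
      ∫ f, a * u (X f) ∂μ := by
    refine integral_congr_ae ?_
    filter_upwards [h1, h] with f h4 h5
    rw [h4, Pi.mul_apply, h5]
  rw [h3, integral_const_mul] at h2
  exact h2

/-- the real and imaginary parts of a weighted characteristic functional -/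
theorem int_exp {g X : Ω → ℝ} (hg : Integrable g μ) (hX : Measurable X) :
    ∫ f, (g f : ℂ) * Complex.exp (I * (X f : ℝ)) ∂μ =
      ((∫ f, g f * Real.cos (X f) ∂μ : ℝ) : ℂ) + ((∫ f, g f * Real.sin (X f) ∂μ : ℝ) : ℂ) * I := by
  have h1 : Integrable (fun f => g f * Real.cos (X f)) μ :=
    int_bdd hg (Real.measurable_cos.comp hX) fun f => Real.abs_cos_le_one _
  have h2 : Integrable (fun f => g f * Real.sin (X f)) μ :=
    int_bdd hg (Real.measurable_sin.comp hX) fun f => Real.abs_sin_le_one _
  have h3 : ∀ f, (g f : ℂ) * Complex.exp (I * (X f : ℝ)) =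
      ((g f * Real.cos (X f) : ℝ) : ℂ) + ((g f * Real.sin (X f) : ℝ) : ℂ) * I := by
    intro f
    rw [mul_comm I, Complex.exp_mul_I]
    push_cast
    ring
  simp only [h3]
  have h1' : Integrable (fun f => ((g f * Real.cos (X f) : ℝ) : ℂ)) μ := h1.ofReal
  have h2' : Integrable (fun f => ((g f * Real.sin (X f) : ℝ) : ℂ)) μ := h2.ofReal
  rw [integral_add h1' (h2'.mul_const I), integral_mul_const]
  congr 1
  · exact integral_ofReal
  · congr 1
    exact integral_ofReal

theorem int_exp_of_condExp {g X : Ω → ℝ} (hg : Integrable g μ) (hX : Measurable X) {a : ℝ}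
    (h : μ[g | MeasurableSpace.comap X inferInstance] =ᵐ[μ] fun _ => a) :
    ∫ f, (g f : ℂ) * Complex.exp (I * (X f : ℝ)) ∂μ =
      (a : ℂ) * ∫ f, Complex.exp (I * (X f : ℝ)) ∂μ := by
  have h1 := int_exp (μ := μ) (g := fun _ => 1) (integrable_const 1) hX
  simp only [Complex.ofReal_one, one_mul] at h1
  rw [int_exp hg hX, h1,
    int_mul_of_condExp hg hX h Real.measurable_cos fun x => Real.abs_cos_le_one x,
    int_mul_of_condExp hg hX h Real.measurable_sin fun x => Real.abs_sin_le_one x]
  push_cast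
  ring

end general

variable {μ : Measure MW} [IsProbabilityMeasure μ]

/-- LR5a -/
theorem reg_exp (hs : IsStationary μ) (h2 : Integrable (fun f : MW => f 0 ^ 2) μ)
    (hR : Regression μ) (k : ℕ) (w : Fin k → ℂ) (t : Fin k → ℝ)
    (h : ∫ f : MW, f 0 * lin w t f ∂μ = 0) :
    ∫ f : MW, (f 0 : ℂ) * Complex.exp (I * (lin w t f : ℝ)) ∂μ = 0 ∧
    ∫ f : MW, ((f 0 ^ 2 : ℝ) : ℂ) * Complex.exp (I * (lin w t f : ℝ)) ∂μ =
      ((∫ f : MW, f 0 ^ 2 ∂μ : ℝ) : ℂ) * ∫ f : MW, Complex.exp (I * (lin w t f : ℝ)) ∂μ := by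
  obtain ⟨h3, h4⟩ := hR k w t h
  have hX : Measurable (lin w t) := meas_lin w t
  have h0 : Integrable (fun f : MW => f 0) μ :=
    (eval_two hs h2 0).integrable (by norm_num)
  refine ⟨?_, int_exp_of_condExp (g := fun f : MW => f 0 ^ 2) h2 hX h4⟩
  have h5 := int_exp_of_condExp (g := fun f : MW => f 0) h0 hX h3
  rw [Complex.ofReal_zero, zero_mul] at h5
  exact h5

end

end Pool.Agent.Helper72.Lr
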