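import Pool.Agent.Helper26.Lr.Defs
import Pool.Agent.Helper26.Ip.Tools
import Pool.Agent.Helper33.Ip.Gauss

/-!
# Package LR6: Gaussian stationary waves have the conditional moments
-/

set_option autoImplicit false
set_option linter.unusedSectionVars false
open MeasureTheory Filter Topology ProbabilityTheory
open scoped ContDiff ENNReal InnerProductSpace

namespace Pool.Agent.Helper72.Lr

open Pool.Agent.N661.BR (MW J0 IsStationary shift meas_eval meas_shift IsGaussianLaw lin meas_lin)
open Pool.Agent.Helper37.BC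
open Pool.Agent.Helper26.Ip
open Pool.Agent.Helper26.Lr
open Pool.Agent.Helper33.Ip (comb_coe ch_gauss mean_values)
open Complex (I)

noncomputable section

variable {μ : Measure MW} [IsProbabilityMeasure μ]

/-- `f 0` is independent of every linear combination of values uncorrelated with it -/
theorem indep_lin (hs : IsStationary μ) (h2 : Integrable (fun f : MW => f 0 ^ 2) μ)
    (hG : IsGaussianLaw μ) (k : ℕ) (w : Fin k → ℂ) (t : Fin k → ℝ)
    (h : ∫ f : MW, f 0 * lin w t f ∂μ = 0) : IndepFun (fun f : MW => f 0) (lin w t) μ := by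
  have ha : V hs h2 0 ∈ values μ := V_mem hs h2 0
  have hb : (∑ j, t j • V hs h2 (w j) : Lp ℝ 2 μ) ∈ values μ :=
    Submodule.sum_mem _ fun j _ => Submodule.smul_mem _ _ (V_mem hs h2 _)
  have hab : ⟪V hs h2 0, (∑ j, t j • V hs h2 (w j) : Lp ℝ 2 μ)⟫_ℝ = 0 := by
    rw [L2.inner_def]
    refine Eq.trans (integral_congr_ae ?_) h
    filter_upwards [V_coe hs h2 0, comb_coe hs h2 w t] with f h3 h4
    rw [h3, h4]
    show lin w t f * f 0 = f 0 * lin w t f
    ring
  have hind : IndepFun (V hs h2 0) (∑ j, t j • V hs h2 (w j) : Lp ℝ 2 μ) μ :=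
    Pool.Agent.Helper41.Ip.indep_of_ch fun s r => by
      rw [ch_gauss hs h2 hG (Submodule.add_mem _ (Submodule.smul_mem _ s ha)
          (Submodule.smul_mem _ r hb)), ch_gauss hs h2 hG (Submodule.smul_mem _ s ha),
        ch_gauss hs h2 hG (Submodule.smul_mem _ r hb), ← Complex.exp_add]
      congr 1
      rw [norm_add_sq_real, real_inner_smul_left, real_inner_smul_right, hab]
      push_cast
      ring
  exact hind.congr (V_coe hs h2 0) (comb_coe hs h2 w t)

/-- LR6 -/
theorem reg_of_gauss (hs : IsStationary μ) (h2 : Integrable (fun f : MW => f 0 ^ 2) μ)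
    (hG : IsGaussianLaw μ) : Regression μ := by
  intro k w t h
  have hi := indep_lin hs h2 hG k w t h
  have hle2 : sig (lin w t) ≤ _ := (meas_lin w t).comap_le
  have hle1 : MeasurableSpace.comap (fun f : MW => f 0) inferInstance ≤ _ :=
    (meas_eval 0).comap_le
  have hI : Indep (MeasurableSpace.comap (fun f : MW => f 0) inferInstance) (sig (lin w t)) μ := hi
  have hm : Measurable[MeasurableSpace.comap (fun f : MW => f 0) inferInstance]
      (fun f : MW => f 0) := comap_measurable _
  refine ⟨?_, condExp_indep_eq hle1 hle2 (hm.pow_const 2).stronglyMeasurable hI⟩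
  have h0 : ∫ f : MW, f 0 ∂μ = 0 :=
    (integral_congr_ae (V_coe hs h2 0).symm).trans (mean_values hs h2 (V_mem hs h2 0))
  have h1 := condExp_indep_eq hle1 hle2 hm.stronglyMeasurable hI
  rwa [h0] at h1

end

end Pool.Agent.Helper72.Lr
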